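import Mathlib
import Pool.Agent.Q67.LYC.Space

/-!
# A dense irregular manifold without dense uniform Li-Yorke chaos
-/

open Filter Topology

namespace Pool.Agent.Results.MP_515085_an.NotUniformlyChaotic

variable {𝕂 X : Type} [RCLike 𝕂] [NormedAddCommGroup X] [NormedSpace 𝕂 X]

/-- `x` is irregular for `T`: `liminf ‖T ^ n x‖ = 0` and `limsup ‖T ^ n x‖ = ∞` (in `[0, ∞]`). -/
def Irregular (T : X →L[𝕂] X) (x : X) : Prop :=
  liminf (fun n : ℕ => ‖(T ^ n) x‖ₑ) atTop = 0 ∧ limsup (fun n : ℕ => ‖(T ^ n) x‖ₑ) atTop = ⊤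

/-- Some dense linear subspace consists, apart from `0`, of irregular vectors. -/
def AdmitsDenseIrregularManifold (T : X →L[𝕂] X) : Prop :=
  ∃ Y : Submodule 𝕂 X, Dense (Y : Set X) ∧ ∀ y ∈ Y, y ≠ 0 → Irregular T y

/-- `S` has at least two points and is uniformly Li-Yorke scrambled for `T`. -/
def UniformlyScrambled (T : X →L[𝕂] X) (S : Set X) : Prop :=
  S.Nontrivial ∧ ∃ p q : ℕ → ℕ, ∀ x ∈ S, ∀ y ∈ S, x ≠ y →
    Tendsto (fun n => ‖(T ^ p n) x - (T ^ p n) y‖) atTop (𝓝 0) ∧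
    Tendsto (fun n => ‖(T ^ q n) x - (T ^ q n) y‖) atTop atTop

/-- Some dense, uncountable set is uniformly Li-Yorke scrambled. -/
def DenselyUniformlyChaotic (T : X →L[𝕂] X) : Prop :=
  ∃ S : Set X, Dense S ∧ ¬ S.Countable ∧ UniformlyScrambled T S

/-- Over `𝕂 = ℝ` and over `𝕂 = ℂ` there are a Banach space `X` and a bounded operator `T` that admits a
dense irregular manifold and is not densely uniformly Li-Yorke chaotic.  In fact for no sequence `p` and
no dense set `S` do all differences `T ^ (p n) x - T ^ (p n) y`, `x, y ∈ S`, tend to `0`. -/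
theorem result (𝕂 : Type) [RCLike 𝕂] : ∃ (X : Type) (_ : NormedAddCommGroup X) (_ : NormedSpace 𝕂 X)
    (_ : CompleteSpace X) (T : X →L[𝕂] X),
    AdmitsDenseIrregularManifold T ∧ ¬ DenselyUniformlyChaotic T ∧
    ¬ ∃ (p : ℕ → ℕ) (S : Set X), Dense S ∧
      ∀ x ∈ S, ∀ y ∈ S, Tendsto (fun n => ‖(T ^ p n) x - (T ^ p n) y‖) atTop (𝓝 0) := by
  obtain ⟨X, i1, i2, i3, T, Y, a, b, hY, hirr, hlow⟩ := Q67.LYC.main 𝕂
  have key : ¬ ∃ (p : ℕ → ℕ) (S : Set X), Dense S ∧
      ∀ x ∈ S, ∀ y ∈ S, Tendsto (fun n => ‖(T ^ p n) x - (T ^ p n) y‖) atTop (𝓝 0) := by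
    rintro ⟨p, S, hS, h⟩
    obtain ⟨s, hs⟩ := hS.nonempty
    obtain ⟨u, huS, hu⟩ := hS.exists_dist_lt (s + a) (show (0 : ℝ) < 1 / 2 by norm_num)
    obtain ⟨v, hvS, hv⟩ := hS.exists_dist_lt (s + b) (show (0 : ℝ) < 1 / 2 by norm_num)
    have e1 := (h u huS s hs).eventually_lt_const (show (0 : ℝ) < 1 / 2 by norm_num)
    have e2 := (h v hvS s hs).eventually_lt_const (show (0 : ℝ) < 1 / 2 by norm_num)
    obtain ⟨n, h1, h2⟩ := (e1.and e2).exists
    rw [← map_sub] at h1 h2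
    have hu' : ‖(u - s) - a‖ < 1 / 2 := by
      rw [dist_comm, dist_eq_norm] at hu
      rwa [show u - s - a = u - (s + a) by abel]
    have hv' : ‖(v - s) - b‖ < 1 / 2 := by
      rw [dist_comm, dist_eq_norm] at hv
      rwa [show v - s - b = v - (s + b) by abel]
    rcases hlow (p n) with h3 | h3
    · have := h3 (u - s)
      linarith
    · have := h3 (v - s)
      linarith
  refine ⟨X, i1, i2, i3, T, ⟨Y, hY, fun y hy hne => ?_⟩, ?_, key⟩
  · obtain ⟨hs, hl⟩ := hirr y hy hne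
    constructor
    · refine le_antisymm (le_of_forall_pos_le_add fun ε hε => ?_) zero_le
      rw [zero_add]
      rcases eq_or_ne ε ⊤ with rfl | hε'
      · exact le_top
      refine liminf_le_of_frequently_le' (frequently_atTop.2 fun M => ?_)
      obtain ⟨n, hn, h⟩ := hs ε.toReal (ENNReal.toReal_pos hε.ne' hε') M
      refine ⟨n, hn, ?_⟩
      rw [← ofReal_norm, ← ENNReal.ofReal_toReal hε']
      exact ENNReal.ofReal_le_ofReal h
    · refine top_unique (ENNReal.le_of_forall_nnreal_lt fun r _ => ?_)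
      refine le_limsup_of_frequently_le' (frequently_atTop.2 fun M => ?_)
      obtain ⟨n, hn, h⟩ := hl r M
      refine ⟨n, hn, ?_⟩
      rw [← ofReal_norm, ← ENNReal.ofReal_coe_nnreal]
      exact ENNReal.ofReal_le_ofReal h
  · rintro ⟨S, hS, _, _, p, q, h⟩
    refine key ⟨p, S, hS, fun x hx y hy => ?_⟩
    by_cases hxy : x = y
    · subst hxy
      simp only [sub_self, norm_zero]
      exact tendsto_const_nhds
    · exact (h x hx y hy hxy).1

end Pool.Agent.Results.MP_515085_an.NotUniformlyChaotic
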